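import Mathlib

/-! The loading problem for the three-node network with two standard-sigmoid hidden nodes and a
perceptron output node, on Boolean inputs. -/

namespace Pool.Agent.Work.MP_fae5c8_lc

/-- The standard sigmoid. -/
noncomputable def sigmoid (z : ℝ) : ℝ := 1 / (1 + Real.exp (-z))

/-- The Heaviside function, with values read as Booleans: `true` iff `0 ≤ z`. -/
noncomputable def heaviside (z : ℝ) : Bool := decide (0 ≤ z)

/-- The inner product of a weight vector with a Boolean point given as a list of `k` bits. -/
noncomputable def dot {k : ℕ} (w : Fin k → ℝ) (x : List Bool) : ℝ :=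
  ∑ j : Fin k, w j * (if x.getD j false then 1 else 0)

/-- An instance `(k, [(x_1, y_1), ..., (x_m, y_m)])` is loadable if some real parameters make the
network agree with all labels. -/
def Loadable (I : ℕ × List (List Bool × Bool)) : Prop :=
  ∃ (w₁ w₂ : Fin I.1 → ℝ) (b₁ b₂ a₀ a₁ a₂ : ℝ), ∀ p ∈ I.2,
    heaviside (a₁ * sigmoid (dot w₁ p.1 + b₁) + a₂ * sigmoid (dot w₂ p.1 + b₂) + a₀) = p.2

end Pool.Agent.Work.MP_fae5c8_lc
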