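import Mathlib
import Pool.Agent.Work.MP_fae5c8_lc.Defs
import Pool.Agent.Work.MP_fae5c8_lc.ER.Etr
import Pool.Agent.Lib.Poly.Arith

-- merged part: Pool.Agent.Work.MP_fae5c8_lc.Shape
section
/-! Planar geometry behind the hardness proof: the regions cut out by the network are convex,
co-convex, or lie above a point-symmetric convex-concave curve. -/

namespace Pool.Agent.Work.MP_fae5c8_lc

open Set

/-- The combinatorial property of a positive region used in the soundness proof. -/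
def Good (P : Set (ℝ × ℝ)) : Prop :=
  ∃ typ : ℝ → Bool, ∀ (τ : Bool) (x1 x2 x3 y1 y2 y3 z1 z2 z3 : ℝ × ℝ),
    typ x1.1 = τ → typ x2.1 = τ → typ x3.1 = τ → typ y1.1 = τ → typ y2.1 = τ → typ y3.1 = τ →
    typ z1.1 = τ → typ z2.1 = τ → typ z3.1 = τ →
    x1.1 ≤ x2.1 → x2.1 ≤ x3.1 → x3.1 ≤ y1.1 → y1.1 ≤ y2.1 → y2.1 ≤ y3.1 → y3.1 ≤ z1.1 →
    z1.1 ≤ z2.1 → z2.1 ≤ z3.1 →
    (0 : ℝ × ℝ) ∈ P → x1 ∉ P → x2 ∉ P → x3 ∉ P → y1 ∉ P → y2 ∉ P → y3 ∉ P →
    z1 ∉ P → z2 ∉ P → z3 ∉ P →
    x1 + x2 + x3 ∉ P → y1 + y2 + y3 ∉ P → z1 + z2 + z3 ∉ P →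
    x1 + y1 + z1 ∈ P → x2 + y2 + z2 ∈ P → x3 + y3 + z3 ∈ P →
    (x1 + x2 + x3) + (y1 + y2 + y3) + (z1 + z2 + z3) ∈ P → False

/-- Closed upwards in the second coordinate. -/
def Up (P : Set (ℝ × ℝ)) : Prop := ∀ p ∈ P, ∀ q : ℝ × ℝ, q.1 = p.1 → p.2 ≤ q.2 → q ∈ P

theorem superadd {K : Set (ℝ × ℝ)} (hK : Convex ℝ K) (h0 : (0 : ℝ × ℝ) ∈ K) (hup : Up K)
    (a b : ℝ × ℝ) (hs : (0 ≤ a.1 ∧ 0 ≤ b.1) ∨ (a.1 ≤ 0 ∧ b.1 ≤ 0)) (hab : a + b ∈ K) :
    a ∈ K ∨ b ∈ K := by
  by_cases hz : a.1 + b.1 = 0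
  · have ha : a.1 = 0 := by rcases hs with h | h <;> linarith [h.1, h.2]
    have hb : b.1 = 0 := by linarith
    rcases le_total 0 a.2 with h | h
    · left; exact hup 0 h0 a ha h
    · right
      exact hup _ hab b (by simp [ha]) (by simp only [Prod.snd_add]; linarith)
  · set l := a.1 / (a.1 + b.1) with hl
    have hl0 : 0 ≤ l := by
      rcases hs with h | h
      · exact div_nonneg h.1 (by linarith [h.1, h.2])
      · exact div_nonneg_of_nonpos h.1 (by linarith [h.1, h.2])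
    have e1 : 1 - l = b.1 / (a.1 + b.1) := by rw [hl]; field_simp; ring
    have hl1 : 0 ≤ 1 - l := by
      rw [e1]
      rcases hs with h | h
      · exact div_nonneg h.2 (by linarith [h.1, h.2])
      · exact div_nonneg_of_nonpos h.2 (by linarith [h.1, h.2])
    have m1 : l • (a + b) ∈ K := by
      have := hK hab h0 hl0 hl1 (by ring)
      simpa using this
    have m2 : (1 - l) • (a + b) ∈ K := by
      have := hK hab h0 hl1 hl0 (by ring)
      simpa using this
    rcases le_total (l * (a.2 + b.2)) a.2 with h | h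
    · left
      refine hup _ m1 a ?_ (by simpa [mul_add] using h)
      simp only [Prod.smul_fst, Prod.fst_add, smul_eq_mul, hl]
      field_simp
    · right
      refine hup _ m2 b ?_ ?_
      · simp only [Prod.smul_fst, Prod.fst_add, smul_eq_mul, e1]
        field_simp
      · simp only [Prod.smul_snd, Prod.snd_add, smul_eq_mul]
        linarith

/-- `W` lies weakly below a point of the segment from `P` to `Q`. -/
def Below (W P Q : ℝ × ℝ) : Prop :=
  ∃ α β : ℝ, 0 ≤ α ∧ 0 ≤ β ∧ α + β = 1 ∧ W.1 = α * P.1 + β * Q.1 ∧ W.2 ≤ α * P.2 + β * Q.2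

theorem below_of_line {W P Q : ℝ × ℝ} (h1 : P.1 ≤ W.1) (h2 : W.1 ≤ Q.1) (hlt : P.1 < Q.1)
    (h : W.2 * (Q.1 - P.1) ≤ P.2 * (Q.1 - W.1) + Q.2 * (W.1 - P.1)) : Below W P Q := by
  have hd : 0 < Q.1 - P.1 := by linarith
  refine ⟨(Q.1 - W.1) / (Q.1 - P.1), (W.1 - P.1) / (Q.1 - P.1), div_nonneg (by linarith) hd.le,
    div_nonneg (by linarith) hd.le, by field_simp; ring, by field_simp; ring, ?_⟩
  rw [div_mul_eq_mul_div, div_mul_eq_mul_div, ← add_div, le_div_iff₀ hd]
  linarith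

/-- Three-point Karamata in geometric form. -/
theorem karamata (A B C X Y Z : ℝ × ℝ) (hAB : A.1 ≤ B.1) (hBC : B.1 ≤ C.1)
    (hX : A.1 ≤ X.1 ∧ X.1 ≤ C.1) (hY : A.1 ≤ Y.1 ∧ Y.1 ≤ C.1) (hZ : A.1 ≤ Z.1 ∧ Z.1 ≤ C.1)
    (hXY : X.1 ≤ Y.1) (hYZ : Y.1 ≤ Z.1)
    (hs1 : X.1 + Y.1 + Z.1 = A.1 + B.1 + C.1) (hs2 : X.2 + Y.2 + Z.2 = A.2 + B.2 + C.2) :
    ∃ W ∈ ({X, Y, Z} : Set (ℝ × ℝ)), Below W A B ∨ Below W B C ∨ Below W A C := by
  by_contra hno
  push Not at hno
  have nX := hno X (by simp)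
  have nY := hno Y (by simp)
  have nZ := hno Z (by simp)
  have triv : ∀ W P Q : ℝ × ℝ, W.1 = P.1 → ¬ Below W P Q → P.2 < W.2 := by
    intro W P Q e h
    by_contra hle
    exact h ⟨1, 0, by norm_num, le_rfl, by norm_num, by simpa using e, by simpa using hle⟩
  have triv' : ∀ W P Q : ℝ × ℝ, W.1 = Q.1 → ¬ Below W P Q → Q.2 < W.2 := by
    intro W P Q e h
    by_contra hle
    exact h ⟨0, 1, le_rfl, by norm_num, by norm_num, by simpa using e, by simpa using hle⟩
  have line : ∀ W P Q : ℝ × ℝ, P.1 ≤ W.1 → W.1 ≤ Q.1 → P.1 < Q.1 → ¬ Below W P Q →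
      P.2 * (Q.1 - W.1) + Q.2 * (W.1 - P.1) < W.2 * (Q.1 - P.1) := by
    intro W P Q h1 h2 h3 h
    by_contra hle
    exact h (below_of_line h1 h2 h3 (not_lt.1 hle))
  rcases (hAB.trans hBC).eq_or_lt with hAC | hAC
  · have e1 : X.1 = A.1 := by linarith [hX.1, hX.2]
    have e2 : Y.1 = B.1 := by linarith [hY.1, hY.2]
    have e3 : Z.1 = C.1 := by linarith [hZ.1, hZ.2]
    linarith [triv X A B e1 nX.1, triv Y B C e2 nY.2.1, triv' Z B C e3 nZ.2.1]
  have lX := line X A C hX.1 hX.2 hAC nX.2.2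
  have lY := line Y A C hY.1 hY.2 hAC nY.2.2
  have lZ := line Z A C hZ.1 hZ.2 hAC nZ.2.2
  -- B lies strictly above the chord A C
  have hB : A.2 * (C.1 - B.1) + C.2 * (B.1 - A.1) < B.2 * (C.1 - A.1) := by
    have e : (X.2 + Y.2 + Z.2) * (C.1 - A.1) = (A.2 + B.2 + C.2) * (C.1 - A.1) := by rw [hs2]
    have e' : A.2 * (X.1 + Y.1 + Z.1) = A.2 * (A.1 + B.1 + C.1) := by rw [hs1]
    have e'' : C.2 * (X.1 + Y.1 + Z.1) = C.2 * (A.1 + B.1 + C.1) := by rw [hs1]
    (clear * - e e' e'' lX lY lZ; nlinarith)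
  rcases hAB.eq_or_lt with h1 | h1
  · -- A.1 = B.1 : use the line B C for all three points
    have hBC' : B.1 < C.1 := by linarith
    have l1 := line X B C (by linarith [hX.1]) hX.2 hBC' nX.2.1
    have l2 := line Y B C (by linarith [hY.1]) hY.2 hBC' nY.2.1
    have l3 := line Z B C (by linarith [hZ.1]) hZ.2 hBC' nZ.2.1
    have e : (X.2 + Y.2 + Z.2) * (C.1 - B.1) = (A.2 + B.2 + C.2) * (C.1 - B.1) := by rw [hs2]
    have e' : B.2 * (X.1 + Y.1 + Z.1) = B.2 * (A.1 + B.1 + C.1) := by rw [hs1]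
    have e'' : C.2 * (X.1 + Y.1 + Z.1) = C.2 * (A.1 + B.1 + C.1) := by rw [hs1]
    rw [h1] at hB e' e''
    (clear * - e e' e'' hB l1 l2 l3; nlinarith)
  rcases hBC.eq_or_lt with h2 | h2
  · have l1 := line X A B hX.1 (by linarith [hX.2]) h1 nX.1
    have l2 := line Y A B hY.1 (by linarith [hY.2]) h1 nY.1
    have l3 := line Z A B hZ.1 (by linarith [hZ.2]) h1 nZ.1
    have e : (X.2 + Y.2 + Z.2) * (B.1 - A.1) = (A.2 + B.2 + C.2) * (B.1 - A.1) := by rw [hs2]
    have e' : B.2 * (X.1 + Y.1 + Z.1) = B.2 * (A.1 + B.1 + C.1) := by rw [hs1]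
    have e'' : A.2 * (X.1 + Y.1 + Z.1) = A.2 * (A.1 + B.1 + C.1) := by rw [hs1]
    rw [← h2] at hB e' e''
    (clear * - e e' e'' hB l1 l2 l3; nlinarith)
  -- slopes
  obtain ⟨m1, hm1⟩ : ∃ m1 : ℝ, B.2 - A.2 = m1 * (B.1 - A.1) :=
    ⟨(B.2 - A.2) / (B.1 - A.1), by have : B.1 - A.1 ≠ 0 := by linarith
                                   field_simp⟩
  obtain ⟨m2, hm2⟩ : ∃ m2 : ℝ, C.2 - B.2 = m2 * (C.1 - B.1) :=
    ⟨(C.2 - B.2) / (C.1 - B.1), by have : C.1 - B.1 ≠ 0 := by linarith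
                                   field_simp⟩
  have hm : m2 < m1 := by
    have : m2 * ((B.1 - A.1) * (C.1 - B.1)) < m1 * ((B.1 - A.1) * (C.1 - B.1)) := by
      have ea : A.2 = B.2 - m1 * (B.1 - A.1) := by linarith
      have ec : C.2 = B.2 + m2 * (C.1 - B.1) := by linarith
      rw [ea, ec] at hB
      (clear * - hB; nlinarith)
    exact lt_of_mul_lt_mul_right this (by apply mul_nonneg <;> linarith)
  have left : ∀ W : ℝ × ℝ, A.1 ≤ W.1 → W.1 ≤ B.1 → ¬ Below W A B →
      B.2 + m1 * (W.1 - B.1) < W.2 := by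
    intro W a b h
    have := line W A B a b h1 h
    have ea : A.2 = B.2 - m1 * (B.1 - A.1) := by linarith
    rw [ea] at this
    have : (B.2 + m1 * (W.1 - B.1)) * (B.1 - A.1) < W.2 * (B.1 - A.1) := by (clear * - this; nlinarith)
    exact lt_of_mul_lt_mul_right this (by linarith)
  have right : ∀ W : ℝ × ℝ, B.1 ≤ W.1 → W.1 ≤ C.1 → ¬ Below W B C →
      B.2 + m2 * (W.1 - B.1) < W.2 := by
    intro W a b h
    have := line W B C a b h2 h
    have ec : C.2 = B.2 + m2 * (C.1 - B.1) := by linarith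
    rw [ec] at this
    have : (B.2 + m2 * (W.1 - B.1)) * (C.1 - B.1) < W.2 * (C.1 - B.1) := by (clear * - this; nlinarith)
    exact lt_of_mul_lt_mul_right this (by linarith)
  have hd : 0 < m1 - m2 := by linarith
  have eZ : Z.1 = A.1 + B.1 + C.1 - X.1 - Y.1 := by linarith
  rcases le_total Z.1 B.1 with c3 | c3
  · have := left X hX.1 (by linarith) nX.1
    have := left Y hY.1 (by linarith) nY.1
    have := left Z hZ.1 c3 nZ.1
    have : 0 ≤ (m1 - m2) * (C.1 - B.1) := mul_nonneg hd.le (by linarith)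
    rw [eZ] at *
    nlinarith
  rcases le_total Y.1 B.1 with c2 | c2
  · have := left X hX.1 (by linarith) nX.1
    have := left Y hY.1 c2 nY.1
    have := right Z c3 hZ.2 nZ.2.1
    have : 0 ≤ (m1 - m2) * (C.1 - Z.1) := mul_nonneg hd.le (by linarith [hZ.2])
    rw [eZ] at *
    nlinarith
  rcases le_total X.1 B.1 with c1 | c1
  · have := left X hX.1 c1 nX.1
    have := right Y c2 hY.2 nY.2.1
    have := right Z c3 hZ.2 nZ.2.1
    have : 0 ≤ (m1 - m2) * (X.1 - A.1) := mul_nonneg hd.le (by linarith [hX.1])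
    rw [eZ] at *
    nlinarith
  · have := right X c1 hX.2 nX.2.1
    have := right Y c2 hY.2 nY.2.1
    have := right Z c3 hZ.2 nZ.2.1
    have : 0 ≤ (m1 - m2) * (B.1 - A.1) := mul_nonneg hd.le (by linarith)
    rw [eZ] at *
    nlinarith

/-- The Karamata step for the nine-point configuration. -/
theorem karamata9 (x1 x2 x3 y1 y2 y3 z1 z2 z3 : ℝ × ℝ)
    (o1 : x1.1 ≤ x2.1) (o2 : x2.1 ≤ x3.1) (o3 : x3.1 ≤ y1.1) (o4 : y1.1 ≤ y2.1)
    (o5 : y2.1 ≤ y3.1) (o6 : y3.1 ≤ z1.1) (o7 : z1.1 ≤ z2.1) (o8 : z2.1 ≤ z3.1) :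
    ∃ W ∈ ({x1 + y1 + z1, x2 + y2 + z2, x3 + y3 + z3} : Set (ℝ × ℝ)),
      ∃ P ∈ ({x1 + x2 + x3, y1 + y2 + y3, z1 + z2 + z3} : Set (ℝ × ℝ)),
      ∃ Q ∈ ({x1 + x2 + x3, y1 + y2 + y3, z1 + z2 + z3} : Set (ℝ × ℝ)),
        P.1 ≤ Q.1 ∧ Below W P Q := by
  obtain ⟨W, hW, h⟩ := karamata (x1 + x2 + x3) (y1 + y2 + y3) (z1 + z2 + z3)
    (x1 + y1 + z1) (x2 + y2 + z2) (x3 + y3 + z3)
    (by simp only [Prod.fst_add]; linarith) (by simp only [Prod.fst_add]; linarith)
    (by simp only [Prod.fst_add]; constructor <;> linarith)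
    (by simp only [Prod.fst_add]; constructor <;> linarith)
    (by simp only [Prod.fst_add]; constructor <;> linarith)
    (by simp only [Prod.fst_add]; linarith) (by simp only [Prod.fst_add]; linarith)
    (by simp only [Prod.fst_add]; ring) (by simp only [Prod.snd_add]; ring)
  refine ⟨W, hW, ?_⟩
  rcases h with h | h | h
  · exact ⟨_, by simp, _, by simp, by simp only [Prod.fst_add]; linarith, h⟩
  · exact ⟨_, by simp, _, by simp, by simp only [Prod.fst_add]; linarith, h⟩
  · exact ⟨_, by simp, _, by simp, by simp only [Prod.fst_add]; linarith, h⟩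

theorem good_of_convex {P : Set (ℝ × ℝ)} (hP : Convex ℝ P) (hup : Up P) : Good P := by
  refine ⟨fun s => decide (0 ≤ s), ?_⟩
  intro τ x1 x2 x3 y1 y2 y3 z1 z2 z3 t1 _ _ t4 _ _ t7 _ _ _ _ _ _ _ _ _ _ h0 n1 _ _ n4 _ _ n7 _ _
    _ _ _ p1 _ _ _
  have hs : (0 ≤ x1.1 ∧ 0 ≤ y1.1 ∧ 0 ≤ z1.1) ∨ (x1.1 ≤ 0 ∧ y1.1 ≤ 0 ∧ z1.1 ≤ 0) := by
    cases τ
    · right
      simp only [decide_eq_false_iff_not, not_le] at t1 t4 t7
      exact ⟨t1.le, t4.le, t7.le⟩
    · left
      simp only [decide_eq_true_eq] at t1 t4 t7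
      exact ⟨t1, t4, t7⟩
  rcases superadd hP h0 hup (x1 + y1) z1 (by
    simp only [Prod.fst_add]
    rcases hs with h | h
    · left; exact ⟨by linarith [h.1, h.2.1], h.2.2⟩
    · right; exact ⟨by linarith [h.1, h.2.1], h.2.2⟩) p1 with h | h
  · rcases superadd hP h0 hup x1 y1 (by
      rcases hs with h | h
      · left; exact ⟨h.1, h.2.1⟩
      · right; exact ⟨h.1, h.2.1⟩) h with h | h
    · exact n1 h
    · exact n4 h
  · exact n7 h

theorem good_of_coconvex {P : Set (ℝ × ℝ)} (hP : Convex ℝ Pᶜ) (hup : Up P) : Good P := by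
  refine ⟨fun _ => true, ?_⟩
  intro τ x1 x2 x3 y1 y2 y3 z1 z2 z3 _ _ _ _ _ _ _ _ _ o1 o2 o3 o4 o5 o6 o7 o8 _ _ _ _ _ _ _ _ _ _
    r1 r2 r3 p1 p2 p3 _
  obtain ⟨W, hW, A, hA, B, hB, _, α, β, h1, h2, h3, h4, h5⟩ :=
    karamata9 x1 x2 x3 y1 y2 y3 z1 z2 z3 o1 o2 o3 o4 o5 o6 o7 o8
  have hWP : W ∈ P := by rcases hW with rfl | rfl | rfl <;> assumption
  have hAP : A ∈ Pᶜ := by rcases hA with rfl | rfl | rfl <;> assumption
  have hBP : B ∈ Pᶜ := by rcases hB with rfl | rfl | rfl <;> assumption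
  exact hP hAP hBP h1 h2 h3 (hup W hWP _ (by simp [h4]) (by simpa using h5))

theorem convex_two_point {g : ℝ → ℝ} {c : ℝ} (hg : ConvexOn ℝ (Iic c) g) {p q x y : ℝ}
    (hq : q ≤ c) (h1 : p ≤ x) (h2 : x ≤ q) (e : x + y = p + q) : g x + g y ≤ g p + g q := by
  rcases (h1.trans h2).eq_or_lt with h | h
  · have ex : x = p := by linarith
    have ey : y = q := by linarith
    rw [ex, ey]
  · have hd : 0 < q - p := by linarith
    set l := (q - x) / (q - p) with hl
    have l0 : 0 ≤ l := div_nonneg (by linarith) hd.le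
    have l1 : 0 ≤ 1 - l := by rw [sub_nonneg, hl, div_le_one hd]; linarith
    have hp : p ∈ Iic c := by simp only [mem_Iic]; linarith
    have a1 := hg.2 hp (mem_Iic.2 hq) l0 l1 (by ring)
    have a2 := hg.2 hp (mem_Iic.2 hq) l1 l0 (by ring)
    have e1 : l • p + (1 - l) • q = x := by simp only [smul_eq_mul, hl]; field_simp; ring
    have e2 : (1 - l) • p + l • q = y := by
      have : y = p + q - x := by linarith
      simp only [smul_eq_mul, hl, this]; field_simp; ring
    rw [e1] at a1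
    rw [e2] at a2
    simp only [smul_eq_mul] at a1 a2
    linarith

theorem three_point {g : ℝ → ℝ} {c : ℝ} (h1 : ConvexOn ℝ (Iic c) g) (h2 : ConcaveOn ℝ (Ici c) g)
    (hc : 0 ≤ c) (h0 : g 0 ≤ 0) {w σ : ℝ} (hw : 0 < w) (hσ0 : 0 ≤ σ) (hσw : σ ≤ w)
    (hstar : σ * g w < w * g σ) {p q α β : ℝ} (hp : 0 ≤ p) (hpq : p ≤ q) (hα : 0 ≤ α) (hβ : 0 ≤ β)
    (hαβ : α + β = 1) (e : w = α * p + β * q) : α * g p + β * g q ≤ g w := by
  -- convexity between `0` and a point `r ≤ c`
  have cvx : ∀ r x : ℝ, 0 < r → r ≤ c → 0 ≤ x → x ≤ r → r * g x ≤ x * g r := by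
    intro r x hr hrc hx hxr
    have := h1.2 (mem_Iic.2 hc) (mem_Iic.2 hrc)
      (show (0 : ℝ) ≤ 1 - x / r by rw [sub_nonneg, div_le_one hr]; exact hxr)
      (div_nonneg hx hr.le) (by ring)
    simp only [smul_eq_mul, mul_zero, zero_add] at this
    rw [div_mul_cancel₀ _ hr.ne'] at this
    have h3 : (1 - x / r) * g 0 ≤ 0 :=
      mul_nonpos_of_nonneg_of_nonpos (by rw [sub_nonneg, div_le_one hr]; exact hxr) h0
    have h4 : g x ≤ x / r * g r := by linarith
    calc r * g x ≤ r * (x / r * g r) := by gcongr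
      _ = _ := by field_simp
  have hcw : c < w := by
    by_contra h
    have := cvx w σ hw (not_lt.1 h) hσ0 hσw
    linarith
  have hpw : p ≤ w := by nlinarith
  have hwq : w ≤ q := by nlinarith
  rcases le_total c p with hcp | hcp
  · have := h2.2 (mem_Ici.2 hcp) (mem_Ici.2 (hcp.trans hpq)) hα hβ hαβ
    simp only [smul_eq_mul] at this
    rw [e]; exact this
  -- a point of the concave side strictly above the ray
  obtain ⟨s, hs1, hs2, hs3⟩ : ∃ s, c ≤ s ∧ s ≤ w ∧ s * g w < w * g s := by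
    rcases le_total c σ with h | h
    · exact ⟨σ, h, hσw, hstar⟩
    · refine ⟨c, le_rfl, hcw.le, ?_⟩
      rcases hσ0.eq_or_lt with hz | hz
      · rw [← hz] at hstar; nlinarith
      · have := cvx c σ (by linarith) le_rfl hσ0 h
        have : σ * (c * g w) < σ * (w * g c) := by (clear * - h hstar hw hz this; nlinarith)
        exact lt_of_mul_lt_mul_left this hσ0
  have hsw : s < w := by
    rcases hs2.eq_or_lt with h | h
    · rw [h] at hs3; exact absurd hs3 (lt_irrefl _)
    · exact h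
  -- concavity at `w` between a point `r` and `q`
  have ccv : ∀ r, c ≤ r → r < w → (q - w) * g r + (w - r) * g q ≤ (q - r) * g w := by
    intro r hr hrw
    have hd : 0 < q - r := by linarith
    have := h2.2 (mem_Ici.2 hr) (mem_Ici.2 (by linarith : c ≤ q))
      (show 0 ≤ (q - w) / (q - r) from div_nonneg (by linarith) hd.le)
      (show 0 ≤ (w - r) / (q - r) from div_nonneg (by linarith) hd.le)
      (by field_simp; ring)
    simp only [smul_eq_mul] at this
    have e' : (q - w) / (q - r) * r + (w - r) / (q - r) * q = w := by field_simp; ring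
    rw [e', div_mul_eq_mul_div, div_mul_eq_mul_div, ← add_div, div_le_iff₀ hd] at this
    linarith
  -- normalised values
  set hq := w * g q - q * g w with hhq
  set hc' := w * g c - c * g w with hhc
  set hp' := w * g p - p * g w with hhp
  have hq0 : hq ≤ 0 := by
    have a := ccv s hs1 hsw
    have b : 0 ≤ (q - w) * (w * g s - s * g w) := mul_nonneg (by linarith) (by linarith)
    have : (w - s) * hq ≤ 0 := by rw [hhq]; (clear * - a b hw; nlinarith)
    by_contra h
    have : 0 < (w - s) * hq := mul_pos (by linarith) (not_le.1 h)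
    linarith
  have goal : α * hp' + β * hq ≤ 0 := by
    rcases hc.eq_or_lt with hz | hz
    · have : p = c := by linarith
      have a := h2.2 (mem_Ici.2 this.ge) (mem_Ici.2 (this.ge.trans hpq)) hα hβ hαβ
      simp only [smul_eq_mul] at a
      rw [← e] at a
      have : α * hp' + β * hq = w * (α * g p + β * g q) - (α * p + β * q) * g w := by
        rw [hhp, hhq]; ring
      rw [this, ← e]
      (clear * - a hw; nlinarith)
    have a := cvx c p hz le_rfl hp hcp
    have b : c * hp' ≤ p * hc' := by rw [hhp, hhc]; (clear * - a hw; nlinarith)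
    rcases le_total hc' 0 with h | h
    · have : hp' ≤ 0 := by
        by_contra h'
        have : 0 < c * hp' := mul_pos hz (not_le.1 h')
        (clear * - b h hp this; nlinarith)
      (clear * - hq0 hα hβ this; nlinarith)
    · have b1 : hp' ≤ hc' := by
        have : c * hp' ≤ c * hc' := b.trans (by gcongr)
        exact le_of_mul_le_mul_left this hz
      have b2 : (q - w) * hc' + (w - c) * hq ≤ 0 := by
        have := ccv c le_rfl hcw
        rw [hhc, hhq]; (clear * - hw this; nlinarith)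
      have b3 : q - w = α * (q - p) := by
        have : β = 1 - α := by linarith
        rw [e, this]; ring
      have b4 : α * (q - c) ≤ q - w := by rw [b3]; gcongr
      have b5 : w - c ≤ β * (q - c) := by
        have : β = 1 - α := by linarith
        rw [this]; linarith
      have hd : 0 < q - c := by linarith
      have : (q - c) * (α * hp' + β * hq) ≤ 0 := by
        calc (q - c) * (α * hp' + β * hq) ≤ (q - c) * (α * hc' + β * hq) := by gcongr
          _ = (α * (q - c)) * hc' + (β * (q - c)) * hq := by ring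
          _ ≤ (q - w) * hc' + (w - c) * hq := by
              have := mul_le_mul_of_nonneg_right b4 h
              have := mul_le_mul_of_nonpos_right b5 hq0
              linarith
          _ ≤ 0 := b2
      by_contra h'
      have := mul_pos hd (not_le.1 h')
      linarith
  have : α * hp' + β * hq = w * (α * g p + β * g q - g w) := by
    rw [hhp, hhq]
    have : (α * p + β * q) * g w = w * g w := by rw [← e]
    linarith
  rw [this] at goal
  by_contra h
  have := mul_pos hw (sub_pos.2 (not_le.1 h))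
  linarith

theorem good_of_scurve {g : ℝ → ℝ} {c : ℝ} (h1 : ConvexOn ℝ (Iic c) g)
    (hsym : ∀ x, g (c + x) + g (c - x) = 2 * g c) : Good {p : ℝ × ℝ | g p.1 ≤ p.2} := by
  have h2 : ConcaveOn ℝ (Ici c) g := by
    refine ⟨convex_Ici c, ?_⟩
    intro x hx y hy a b ha hb hab
    have := h1.2 (x := 2 * c - x) (by simp only [mem_Iic, mem_Ici] at *; linarith)
      (y := 2 * c - y) (by simp only [mem_Iic, mem_Ici] at *; linarith) ha hb hab
    simp only [smul_eq_mul] at this ⊢
    have s : ∀ z, g (2 * c - z) = 2 * g c - g z := by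
      intro z
      have := hsym (z - c)
      rw [show c + (z - c) = z by ring, show c - (z - c) = 2 * c - z by ring] at this
      linarith
    have e : a * (2 * c - x) + b * (2 * c - y) = 2 * c - (a * x + b * y) := by
      have : b = 1 - a := by linarith
      rw [this]; ring
    rw [e, s, s, s] at this
    have : b = 1 - a := by linarith
    subst this
    linarith
  rcases le_or_gt 0 c with hc | hc
  · refine ⟨fun s => decide (0 ≤ s), ?_⟩
    intro τ x1 x2 x3 y1 y2 y3 z1 z2 z3 t1 t2 t3 t4 t5 t6 t7 t8 t9 o1 o2 o3 o4 o5 o6 o7 o8 h0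
      n1 n2 n3 n4 n5 n6 n7 n8 n9 r1 r2 r3 p1 p2 p3 _
    have g0 : g 0 ≤ 0 := h0
    cases τ
    · simp only [decide_eq_false_iff_not, not_le] at t1 t4 t7
      have hK : Convex ℝ {p : ℝ × ℝ | p.1 ∈ Iic c ∧ g p.1 ≤ p.2} := h1.convex_epigraph
      have hup : Up {p : ℝ × ℝ | p.1 ∈ Iic c ∧ g p.1 ≤ p.2} := by
        intro p hp q e h
        exact ⟨by rw [e]; exact hp.1, by rw [e]; exact hp.2.trans h⟩
      rcases superadd hK ⟨hc, g0⟩ hup (x1 + y1) z1
        (Or.inr ⟨by simp only [Prod.fst_add]; linarith, t7.le⟩)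
        ⟨by simp only [Prod.fst_add, mem_Iic]; linarith, p1⟩ with h | h
      · rcases superadd hK ⟨hc, g0⟩ hup x1 y1 (Or.inr ⟨t1.le, t4.le⟩) h with h | h
        · exact n1 h.2
        · exact n4 h.2
      · exact n7 h.2
    · simp only [decide_eq_true_eq] at t1 t2 t3 t4 t5 t6 t7 t8 t9
      have star : ∀ a b d : ℝ × ℝ, 0 ≤ a.1 → 0 ≤ b.1 → 0 ≤ d.1 → ¬ g a.1 ≤ a.2 → ¬ g b.1 ≤ b.2 →
          ¬ g d.1 ≤ d.2 → g (a + b + d).1 ≤ (a + b + d).2 → 0 < (a + b + d).1 ∧
          ∃ σ, 0 ≤ σ ∧ σ ≤ (a + b + d).1 ∧ σ * g (a + b + d).1 < (a + b + d).1 * g σ := by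
        intro a b d ha hb hd na nb nd p
        simp only [Prod.fst_add, Prod.snd_add, not_le] at *
        have hw : 0 < a.1 + b.1 + d.1 := by
          by_contra h
          have e1 : a.1 = 0 := by linarith
          have e2 : b.1 = 0 := by linarith
          have e3 : d.1 = 0 := by linarith
          rw [e1] at na; rw [e2] at nb; rw [e3] at nd
          rw [e1, e2, e3] at p
          simp only [add_zero] at p
          linarith
        refine ⟨hw, ?_⟩
        by_contra hno
        push Not at hno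
        have a1 := hno a.1 ha (by linarith)
        have a2 := hno b.1 hb (by linarith)
        have a3 := hno d.1 hd (by linarith)
        (clear * - a1 a2 a3 ha hb hd hw na nb nd p; nlinarith)
      obtain ⟨W, hW, A, hA, B, hB, hAB, α, β, e1, e2, e3, e4, e5⟩ :=
        karamata9 x1 x2 x3 y1 y2 y3 z1 z2 z3 o1 o2 o3 o4 o5 o6 o7 o8
      have hWP : g W.1 ≤ W.2 := by rcases hW with rfl | rfl | rfl <;> assumption
      have hAP : ¬ g A.1 ≤ A.2 := by rcases hA with rfl | rfl | rfl <;> assumption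
      have hBP : ¬ g B.1 ≤ B.2 := by rcases hB with rfl | rfl | rfl <;> assumption
      have hA0 : 0 ≤ A.1 := by
        rcases hA with rfl | rfl | rfl <;> simp only [Prod.fst_add] <;> linarith
      obtain ⟨hw, σ, s1, s2, s3⟩ : 0 < W.1 ∧ ∃ σ, 0 ≤ σ ∧ σ ≤ W.1 ∧ σ * g W.1 < W.1 * g σ := by
        rcases hW with rfl | rfl | rfl
        · exact star _ _ _ t1 t4 t7 n1 n4 n7 p1
        · exact star _ _ _ t2 t5 t8 n2 n5 n8 p2
        · exact star _ _ _ t3 t6 t9 n3 n6 n9 p3
      have := three_point h1 h2 hc g0 hw s1 s2 s3 hA0 hAB e1 e2 e3 e4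
      push Not at hAP hBP
      have : α * A.2 + β * B.2 < α * g A.1 + β * g B.1 := by
        rcases e1.eq_or_lt with h | h
        · have : β = 1 := by linarith
          rw [← h, this]; linarith
        · nlinarith [mul_le_mul_of_nonneg_left hBP.le e2]
      linarith
  · refine ⟨fun s => decide (c ≤ 3 * s), ?_⟩
    intro τ x1 x2 x3 y1 y2 y3 z1 z2 z3 t1 t2 t3 t4 t5 t6 t7 t8 t9 o1 o2 o3 o4 o5 o6 o7 o8 h0
      _ _ _ _ _ _ _ _ _ r1 r2 r3 p1 p2 p3 pt
    have g0 : g 0 ≤ 0 := h0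
    cases τ
    · simp only [decide_eq_false_iff_not, not_le] at t1 t2 t3 t4 t5 t6 t7 t8 t9
      have sup : ∀ a b : ℝ, a ≤ c → b ≤ c → g a + g b ≤ g (a + b) := by
        intro a b ha hb
        have a1 := convex_two_point h1 (p := a + b) (q := c) (x := a) (y := b + c) le_rfl
          (by linarith) ha (by ring)
        have a2 := convex_two_point h1 (p := b + c) (q := c) (x := b) (y := c + c) le_rfl
          (by linarith) hb (by ring)
        have a3 := hsym c
        rw [sub_self] at a3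
        linarith
      simp only [mem_ofPred_eq, Prod.fst_add, Prod.snd_add, not_le] at r1 r2 r3 pt
      have b1 := sup (x1.1 + x2.1 + x3.1) (y1.1 + y2.1 + y3.1) (by linarith) (by linarith)
      have b2 := sup (x1.1 + x2.1 + x3.1 + (y1.1 + y2.1 + y3.1)) (z1.1 + z2.1 + z3.1)
        (by linarith) (by linarith)
      linarith
    · simp only [decide_eq_true_eq] at t1 t2 t3 t4 t5 t6 t7 t8 t9
      obtain ⟨W, hW, A, hA, B, hB, hAB, α, β, e1, e2, e3, e4, e5⟩ :=
        karamata9 x1 x2 x3 y1 y2 y3 z1 z2 z3 o1 o2 o3 o4 o5 o6 o7 o8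
      have hWP : g W.1 ≤ W.2 := by rcases hW with rfl | rfl | rfl <;> assumption
      have hAP : ¬ g A.1 ≤ A.2 := by rcases hA with rfl | rfl | rfl <;> assumption
      have hBP : ¬ g B.1 ≤ B.2 := by rcases hB with rfl | rfl | rfl <;> assumption
      have hA0 : c ≤ A.1 := by
        rcases hA with rfl | rfl | rfl <;> simp only [Prod.fst_add] <;> linarith
      have := h2.2 (mem_Ici.2 hA0) (mem_Ici.2 (hA0.trans hAB)) e1 e2 e3
      simp only [smul_eq_mul] at this
      rw [← e4] at this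
      push Not at hAP hBP
      have : α * A.2 + β * B.2 < α * g A.1 + β * g B.1 := by
        rcases e1.eq_or_lt with h | h
        · have : β = 1 := by linarith
          rw [← h, this]; linarith
        · nlinarith [mul_le_mul_of_nonneg_left hBP.le e2]
      linarith

end Pool.Agent.Work.MP_fae5c8_lc
end

-- merged part: Pool.Agent.Work.MP_fae5c8_lc.Net
section
/-! The decision regions of the network have the property `Good`. -/

namespace Pool.Agent.Work.MP_fae5c8_lc

open Set Real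

def Nice (F : ℝ × ℝ → Prop) : Prop :=
  ∃ (L : ℝ × ℝ →+ ℝ × ℝ) (P : Set (ℝ × ℝ)), Good P ∧ ∀ p, F p ↔ L p ∈ P

theorem Nice.comp {F G : ℝ × ℝ → Prop} (h : Nice F) (M : ℝ × ℝ →+ ℝ × ℝ)
    (e : ∀ p, G p ↔ F (M p)) : Nice G := by
  obtain ⟨L, P, h1, h2⟩ := h
  exact ⟨L.comp M, P, h1, fun p => (e p).trans (h2 _)⟩

theorem convexOn_three (a b c : ℝ) (ha : 0 ≤ a) (hb : 0 ≤ b) (hc : 0 ≤ c) (ε : ℝ) :
    ConvexOn ℝ univ fun p : ℝ × ℝ =>
      a * exp (ε * p.1) + b * exp (ε * p.2) + c * exp (ε * (p.1 + p.2)) := by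
  refine ⟨convex_univ, ?_⟩
  intro x _ y _ s t hs ht hst
  have h := fun u v : ℝ => convexOn_exp.2 (mem_univ u) (mem_univ v) hs ht hst
  have h1 := mul_le_mul_of_nonneg_left (h (ε * x.1) (ε * y.1)) ha
  have h2 := mul_le_mul_of_nonneg_left (h (ε * x.2) (ε * y.2)) hb
  have h3 := mul_le_mul_of_nonneg_left (h (ε * (x.1 + x.2)) (ε * (y.1 + y.2))) hc
  simp only [smul_eq_mul, Prod.fst_add, Prod.snd_add, Prod.smul_fst, Prod.smul_snd] at *
  rw [show ε * (s * x.1 + t * y.1) = s * (ε * x.1) + t * (ε * y.1) by ring,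
    show ε * (s * x.2 + t * y.2) = s * (ε * x.2) + t * (ε * y.2) by ring,
    show ε * (s * x.1 + t * y.1 + (s * x.2 + t * y.2)) =
      s * (ε * (x.1 + x.2)) + t * (ε * (y.1 + y.2)) by ring]
  linarith

theorem good_cvx (a b c κ : ℝ) (ha : 0 ≤ a) (hb : 0 ≤ b) (hc : 0 ≤ c) :
    Good {p : ℝ × ℝ | a * exp (-1 * p.1) + b * exp (-1 * p.2) + c * exp (-1 * (p.1 + p.2)) ≤ κ} := by
  apply good_of_convex
  · have := (convexOn_three a b c ha hb hc (-1)).convex_le κ
    simpa using this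
  · intro p hp q e h
    simp only [mem_ofPred_eq] at hp ⊢
    rw [e]
    refine le_trans ?_ hp
    gcongr a * exp (-1 * p.1) + b * exp ?_ + c * exp ?_ <;> linarith

theorem good_ccv (a b c κ : ℝ) (ha : 0 ≤ a) (hb : 0 ≤ b) (hc : 0 ≤ c) :
    Good {p : ℝ × ℝ | κ ≤ a * exp (1 * p.1) + b * exp (1 * p.2) + c * exp (1 * (p.1 + p.2))} := by
  apply good_of_coconvex
  · have := (convexOn_three a b c ha hb hc 1).convex_lt κ
    have e : {p : ℝ × ℝ | κ ≤ a * exp (1 * p.1) + b * exp (1 * p.2) +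
        c * exp (1 * (p.1 + p.2))}ᶜ = {p : ℝ × ℝ | p ∈ univ ∧ a * exp (1 * p.1) +
        b * exp (1 * p.2) + c * exp (1 * (p.1 + p.2)) < κ} := by
      ext p
      simp
    rw [e]; exact this
  · intro p hp q e h
    simp only [mem_ofPred_eq] at hp ⊢
    rw [e]
    refine le_trans hp ?_
    gcongr a * exp (1 * p.1) + b * exp ?_ + c * exp ?_ <;> linarith

theorem good_s (d b κ : ℝ) (hd : 0 < d) (hdb : d ≤ b) :
    Good {p : ℝ × ℝ | log (exp p.1 + d) - log (exp p.1 + b) + κ ≤ p.2} := by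
  have hb : 0 < b := by linarith
  set c := (log b + log d) / 2 with hc
  have hcc : exp c * exp c = b * d := by
    rw [← exp_add, hc, add_halves, exp_add, exp_log hb, exp_log hd]
  apply good_of_scurve (g := fun s => log (exp s + d) - log (exp s + b) + κ) (c := c)
  · have hder : ∀ s, HasDerivAt (fun s => log (exp s + d) - log (exp s + b) + κ)
        (exp s / (exp s + d) - exp s / (exp s + b)) s := by
      intro s
      have h1 := ((hasDerivAt_exp s).add_const d).log (by positivity)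
      have h2 := ((hasDerivAt_exp s).add_const b).log (by positivity)
      exact (h1.sub h2).add_const κ
    apply MonotoneOn.convexOn_of_deriv (convex_Iic c)
    · exact fun s _ => (hder s).continuousAt.continuousWithinAt
    · exact fun s _ => (hder s).differentiableAt.differentiableWithinAt
    · intro x hx y hy hxy
      rw [interior_Iic] at hx hy
      rw [(hder x).deriv, (hder y).deriv]
      have ex := exp_pos x
      have ey := exp_pos y
      have h1 : exp x ≤ exp y := exp_le_exp.2 hxy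
      have h2 : exp y ≤ exp c := exp_le_exp.2 (le_of_lt hy)
      have h3 : exp x * exp y ≤ b * d := by
        rw [← hcc]; exact mul_le_mul (h1.trans h2) h2 ey.le (exp_pos c).le
      rw [div_sub_div _ _ (by positivity) (by positivity),
        div_sub_div _ _ (by positivity) (by positivity),
        div_le_div_iff₀ (by positivity) (by positivity)]
      have h4 : 0 ≤ (b - d) * ((exp y - exp x) * (b * d - exp x * exp y)) := by
        apply mul_nonneg (by linarith); apply mul_nonneg <;> linarith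
      nlinarith
  · intro x
    have e1 : exp (c + x) * exp (c - x) = b * d := by
      rw [← exp_add, ← hcc, ← exp_add]; congr 1; ring
    have p1 := exp_pos (c + x)
    have p2 := exp_pos (c - x)
    have p3 := exp_pos c
    have k1 : (exp (c + x) + d) * (exp (c - x) + d) * ((exp c + b) * (exp c + b)) =
        (exp (c + x) + b) * (exp (c - x) + b) * ((exp c + d) * (exp c + d)) := by
      have a1 : (exp (c + x) + d) * (exp (c - x) + d) = d * (b + d + (exp (c + x) + exp (c - x))) := by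
        linear_combination e1
      have a2 : (exp (c + x) + b) * (exp (c - x) + b) = b * (b + d + (exp (c + x) + exp (c - x))) := by
        linear_combination e1
      have a3 : (exp c + d) * (exp c + d) = d * (b + d + 2 * exp c) := by linear_combination hcc
      have a4 : (exp c + b) * (exp c + b) = b * (b + d + 2 * exp c) := by linear_combination hcc
      rw [a1, a2, a3, a4]; ring
    have := congrArg log k1
    rw [log_mul (by positivity) (by positivity), log_mul (by positivity) (by positivity),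
      log_mul (by positivity) (by positivity), log_mul (by positivity) (by positivity),
      log_mul (by positivity) (by positivity), log_mul (by positivity) (by positivity)] at this
    linarith

theorem sigmoid_eq (z : ℝ) : sigmoid z = exp z / (1 + exp z) := by
  unfold sigmoid
  rw [exp_neg]
  have := exp_pos z
  field_simp
  ring

theorem sigmoid_neg (z : ℝ) : sigmoid (-z) = 1 - sigmoid z := by
  rw [sigmoid_eq z]
  unfold sigmoid
  have := exp_pos z
  rw [neg_neg]
  field_simp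
  ring

theorem net_iff (a0 a1 a2 u v : ℝ) : 0 ≤ a1 * sigmoid u + a2 * sigmoid v + a0 ↔
    0 ≤ (a0 + a1 + a2) * (exp u * exp v) + (a0 + a1) * exp u + (a0 + a2) * exp v + a0 := by
  have hu := exp_pos u
  have hv := exp_pos v
  have e : (a0 + a1 + a2) * (exp u * exp v) + (a0 + a1) * exp u + (a0 + a2) * exp v + a0 =
      (a1 * sigmoid u + a2 * sigmoid v + a0) * ((1 + exp u) * (1 + exp v)) := by
    rw [sigmoid_eq, sigmoid_eq]; field_simp; ring
  rw [e, mul_nonneg_iff_of_pos_right (by positivity)]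

theorem nice_sorted (a0 a1 a2 b1 b2 : ℝ) (h2 : 0 ≤ a2) (h12 : a2 ≤ a1) :
    Nice fun p => 0 ≤ a1 * sigmoid (p.1 + b1) + a2 * sigmoid (p.2 + b2) + a0 := by
  have B1 := exp_pos b1
  have B2 := exp_pos b2
  rcases le_or_gt 0 (a0 + a2) with hγ | hγ
  · refine ⟨AddMonoidHom.id _, _, good_ccv ((a0 + a1) * exp b1) ((a0 + a2) * exp b2)
      ((a0 + a1 + a2) * (exp b1 * exp b2)) (-a0) (mul_nonneg (by linarith) B1.le)
      (mul_nonneg hγ B2.le) (mul_nonneg (by linarith) (by positivity)), ?_⟩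
    intro p
    beta_reduce; rw [net_iff]
    simp only [AddMonoidHom.id_apply, mem_ofPred_eq, one_mul, exp_add]
    constructor <;> intro h <;> linarith
  rcases le_or_gt (a0 + a1) 0 with hβ | hβ
  · refine ⟨AddMonoidHom.id _, _, good_cvx (-(a0 + a2) * exp b2) (-(a0 + a1) * exp b1)
      (-a0) ((a0 + a1 + a2) * (exp b1 * exp b2)) (mul_nonneg (by linarith) B2.le)
      (mul_nonneg (by linarith) B1.le) (by linarith), ?_⟩
    intro p
    beta_reduce; rw [net_iff]
    simp only [AddMonoidHom.id_apply, mem_ofPred_eq, neg_mul, one_mul, exp_add, exp_neg]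
    have U := exp_pos p.1
    have V := exp_pos p.2
    rw [← sub_nonneg (a := (a0 + a1 + a2) * (exp b1 * exp b2)),
      ← mul_nonneg_iff_of_pos_right (mul_pos U V) (b := _ - _)]
    apply iff_of_eq
    congr 1
    field_simp
    ring
  · have hα : 0 < a0 + a1 + a2 := by linarith
    have hδ : 0 < -a0 := by linarith
    have hγ' : 0 < -(a0 + a2) := by linarith
    refine ⟨(-AddMonoidHom.snd ℝ ℝ).prod (AddMonoidHom.fst ℝ ℝ), _,
      good_s (-(a0 + a2) * exp b2 / (-a0)) ((a0 + a1 + a2) * exp b2 / (a0 + a1))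
        (log (-a0) - log (a0 + a1) - b1) (by positivity) ?_, ?_⟩
    · calc -(a0 + a2) * exp b2 / (-a0) ≤ exp b2 := by
            rw [div_le_iff₀ hδ]; nlinarith
        _ ≤ _ := by rw [le_div_iff₀ hβ]; nlinarith
    · intro p
      beta_reduce; rw [net_iff]
      simp only [AddMonoidHom.prod_apply, AddMonoidHom.neg_apply, AddMonoidHom.coe_snd,
        AddMonoidHom.coe_fst, mem_ofPred_eq]
      have U := exp_pos p.1
      have V := exp_pos p.2
      have E := exp_pos (-p.2)
      set X := exp (-p.2) + -(a0 + a2) * exp b2 / (-a0) with hX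
      set Y := exp (-p.2) + (a0 + a1 + a2) * exp b2 / (a0 + a1) with hY
      have hXp : 0 < X := by positivity
      have hYp : 0 < Y := by positivity
      have e : log X - log Y + (log (-a0) - log (a0 + a1) - b1) ≤ p.1 ↔
          X * (-a0) ≤ exp (p.1 + b1) * (Y * (a0 + a1)) := by
        rw [← log_le_log_iff (x := X * (-a0)) (by positivity) (by positivity),
          log_mul hXp.ne' hδ.ne',
          log_mul (by positivity) (by positivity), log_mul hYp.ne' hβ.ne', log_exp]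
        constructor <;> intro h <;> linarith
      rw [e, ← sub_nonneg (b := X * -a0), ← mul_nonneg_iff_of_pos_right V (b := _ - _)]
      apply iff_of_eq
      congr 1
      rw [hX, hY, exp_neg, exp_add p.2]
      have : a0 ≠ 0 := by linarith
      field_simp
      ring

theorem nice_nonneg (a0 a1 a2 b1 b2 : ℝ) (h1 : 0 ≤ a1) (h2 : 0 ≤ a2) :
    Nice fun p => 0 ≤ a1 * sigmoid (p.1 + b1) + a2 * sigmoid (p.2 + b2) + a0 := by
  rcases le_total a2 a1 with h | h
  · exact nice_sorted a0 a1 a2 b1 b2 h2 h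
  · refine (nice_sorted a0 a2 a1 b2 b1 h1 h).comp
      ((AddMonoidHom.snd ℝ ℝ).prod (AddMonoidHom.fst ℝ ℝ)) ?_
    intro p
    simp only [AddMonoidHom.prod_apply, AddMonoidHom.coe_snd, AddMonoidHom.coe_fst]
    rw [add_comm (a1 * _)]

theorem nice_left (a0 a1 a2 b1 b2 : ℝ) (h1 : 0 ≤ a1) :
    Nice fun p => 0 ≤ a1 * sigmoid (p.1 + b1) + a2 * sigmoid (p.2 + b2) + a0 := by
  rcases le_total 0 a2 with h | h
  · exact nice_nonneg a0 a1 a2 b1 b2 h1 h
  · refine (nice_nonneg (a0 + a2) a1 (-a2) b1 (-b2) h1 (by linarith)).comp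
      ((AddMonoidHom.fst ℝ ℝ).prod (-AddMonoidHom.snd ℝ ℝ)) ?_
    intro p
    simp only [AddMonoidHom.prod_apply, AddMonoidHom.coe_snd, AddMonoidHom.coe_fst,
      AddMonoidHom.neg_apply]
    rw [← neg_add, sigmoid_neg]
    apply iff_of_eq; congr 1; ring

theorem nice_net (a0 a1 a2 b1 b2 : ℝ) :
    Nice fun p => 0 ≤ a1 * sigmoid (p.1 + b1) + a2 * sigmoid (p.2 + b2) + a0 := by
  rcases le_total 0 a1 with h | h
  · exact nice_left a0 a1 a2 b1 b2 h
  · refine (nice_left (a0 + a1) (-a1) a2 (-b1) b2 (by linarith)).comp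
      ((-AddMonoidHom.fst ℝ ℝ).prod (AddMonoidHom.snd ℝ ℝ)) ?_
    intro p
    simp only [AddMonoidHom.prod_apply, AddMonoidHom.coe_snd, AddMonoidHom.coe_fst,
      AddMonoidHom.neg_apply]
    rw [← neg_add, sigmoid_neg]
    apply iff_of_eq; congr 1; ring

end Pool.Agent.Work.MP_fae5c8_lc
end

-- merged part: Pool.Agent.Work.MP_fae5c8_lc.ER.ToEtr
section
/-! The loading problem reduces to the existential theory of the reals. -/

namespace Pool.Agent.Work.MP_fae5c8_lc.ER

open Pool.Agent.Lib.Poly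

/-- The active coordinates of a point. -/
def ToEtrJ (k : ℕ) (l : List Bool) : List ℕ :=
  (List.range l.length).filter fun j => l.getD j false && decide (j < k)

/-- The monomial `x_b * ∏ x_(c+2j)`. -/
def ToEtrU (J : List ℕ) (c b : ℕ) : Tm :=
  J.foldl (fun t j => .mul t (.var (c + 2 * j))) (.var b)

/-- The cleared output of the network. -/
def ToEtrP (U V : Tm) : Tm :=
  .add (.add (.add (.mul (.add (.add (.var 0) (.var 1)) (.var 2)) (.mul U V))
    (.mul (.add (.var 0) (.var 1)) U)) (.mul (.add (.var 0) (.var 2)) V)) (.var 0)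

/-- The formula of one labelled point. -/
def ToEtrF (U V : Tm) (y : Bool) : Fm :=
  .and (.and (.lt .zero U) (.lt .zero V))
    (bif y then .not (.lt (ToEtrP U V) .zero) else .lt (ToEtrP U V) .zero)

/-- The formula of one labelled point of an instance. -/
def ToEtrPt (k : ℕ) (p : List Bool × Bool) : Fm :=
  ToEtrF (ToEtrU (ToEtrJ k p.1) 5 3) (ToEtrU (ToEtrJ k p.1) 6 4) p.2

/-- The reduction. -/
def ToEtrG (I : ℕ × List (List Bool × Bool)) : Fm :=
  I.2.foldl (fun f p => .and f (ToEtrPt I.1 p)) (.eq .zero .zero)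

theorem ToEtr_eval_fold (x : ℕ → ℝ) (J : List ℕ) (c : ℕ) (t : Tm) :
    (J.foldl (fun t j => Tm.mul t (.var (c + 2 * j))) t).eval x =
      t.eval x * (J.map fun j => x (c + 2 * j)).prod := by
  induction J generalizing t with
  | nil => simp
  | cons j J ih => simp [ih, Tm.eval, mul_assoc]

theorem ToEtr_evalU (x : ℕ → ℝ) (J : List ℕ) (c b : ℕ) :
    (ToEtrU J c b).eval x = x b * (J.map fun j => x (c + 2 * j)).prod :=
  ToEtr_eval_fold x J c _

theorem ToEtr_holds_fold (x : ℕ → ℝ) (k : ℕ) (l : List (List Bool × Bool)) (f : Fm) :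
    (l.foldl (fun f p => Fm.and f (ToEtrPt k p)) f).Holds x ↔
      f.Holds x ∧ ∀ p ∈ l, (ToEtrPt k p).Holds x := by
  induction l generalizing f with
  | nil => simp
  | cons p l ih => simp [ih, Fm.Holds, and_assoc]

theorem ToEtr_holdsG (x : ℕ → ℝ) (I : ℕ × List (List Bool × Bool)) :
    (ToEtrG I).Holds x ↔ ∀ p ∈ I.2, (ToEtrPt I.1 p).Holds x := by
  unfold ToEtrG
  rw [ToEtr_holds_fold]
  simp [Fm.Holds]

theorem ToEtr_holdsF (x : ℕ → ℝ) (U V : Tm) (y : Bool) :
    (ToEtrF U V y).Holds x ↔ (0 < U.eval x ∧ 0 < V.eval x) ∧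
      decide (0 ≤ (x 0 + x 1 + x 2) * (U.eval x * V.eval x) + (x 0 + x 1) * U.eval x +
        (x 0 + x 2) * V.eval x + x 0) = y := by
  cases y <;> simp [ToEtrF, ToEtrP, Fm.Holds, Tm.eval]

theorem ToEtr_dot {k : ℕ} (w : Fin k → ℝ) (W : ℕ → ℝ) (hW : ∀ j : Fin k, w j = W j)
    (l : List Bool) : dot w l = ((ToEtrJ k l).map W).sum := by
  have hn : (ToEtrJ k l).Nodup := List.nodup_range.filter _
  rw [← List.sum_toFinset _ hn, dot]
  simp only [hW]
  rw [Fin.sum_univ_eq_sum_range (fun j => W j * (if l.getD j false then 1 else 0)) k]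
  simp only [mul_ite, mul_one, mul_zero]
  rw [← Finset.sum_filter]
  refine Finset.sum_congr ?_ fun _ _ => rfl
  ext j
  simp only [ToEtrJ, Finset.mem_filter, Finset.mem_range, List.mem_toFinset, List.mem_filter,
    List.mem_range, Bool.and_eq_true, decide_eq_true_eq]
  constructor
  · rintro ⟨h1, h2⟩
    refine ⟨?_, h2, h1⟩
    by_contra h
    rw [List.getD_eq_default _ _ (by omega)] at h2
    cases h2
  · rintro ⟨_, h2, h1⟩
    exact ⟨h1, h2⟩

theorem ToEtr_exp_sum (J : List ℕ) (W : ℕ → ℝ) :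
    Real.exp ((J.map W).sum) = (J.map fun j => Real.exp (W j)).prod := by
  induction J with
  | nil => simp
  | cons j J ih => simp [Real.exp_add, ih]

theorem ToEtr_exp_log (J : List ℕ) (y : ℕ → ℝ) (b : ℝ) (h : 0 < b * (J.map y).prod) :
    Real.exp ((J.map fun j => Real.log (y j)).sum + Real.log b) = b * (J.map y).prod := by
  have key : ∀ (J : List ℕ) (b : ℝ), b * (J.map y).prod ≠ 0 →
      Real.exp ((J.map fun j => Real.log (y j)).sum + Real.log b) = |b * (J.map y).prod| := by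
    intro J
    induction J with
    | nil =>
      intro b hb
      simp only [List.map_nil, List.prod_nil, mul_one, List.sum_nil, zero_add] at hb ⊢
      exact Real.exp_log_eq_abs hb
    | cons j J ih =>
      intro b hb
      simp only [List.map_cons, List.prod_cons, List.sum_cons] at hb ⊢
      have h1 : y j ≠ 0 := fun e => hb (by simp [e])
      have h2 : b * (J.map y).prod ≠ 0 := fun e => hb (by rw [mul_left_comm, e, mul_zero])
      rw [add_assoc, Real.exp_add, ih b h2, Real.exp_log_eq_abs h1, ← abs_mul, mul_left_comm]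
  rw [key J b h.ne', abs_of_pos h]

theorem ToEtr_correct (I : ℕ × List (List Bool × Bool)) :
    Loadable I ↔ ∃ x, (ToEtrG I).Holds x := by
  constructor
  · rintro ⟨w1, w2, b1, b2, a0, a1, a2, h⟩
    let W1 : ℕ → ℝ := fun j => if hj : j < I.1 then w1 ⟨j, hj⟩ else 0
    let W2 : ℕ → ℝ := fun j => if hj : j < I.1 then w2 ⟨j, hj⟩ else 0
    let x : ℕ → ℝ := fun n => if n = 0 then a0 else if n = 1 then a1 else if n = 2 then a2 else
      if n = 3 then Real.exp b1 else if n = 4 then Real.exp b2 else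
        if n % 2 = 1 then Real.exp (W1 ((n - 5) / 2)) else Real.exp (W2 ((n - 6) / 2))
    have x5 : ∀ j, x (5 + 2 * j) = Real.exp (W1 j) := fun j => by
      have e : (5 + 2 * j - 5) / 2 = j := by omega
      simp only [x]
      rw [if_neg (by omega), if_neg (by omega), if_neg (by omega), if_neg (by omega),
        if_neg (by omega), if_pos (by omega), e]
    have x6 : ∀ j, x (6 + 2 * j) = Real.exp (W2 j) := fun j => by
      have e : (6 + 2 * j - 6) / 2 = j := by omega
      simp only [x]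
      rw [if_neg (by omega), if_neg (by omega), if_neg (by omega), if_neg (by omega),
        if_neg (by omega), if_neg (by omega), e]
    refine ⟨x, (ToEtr_holdsG x I).2 fun p hp => ?_⟩
    have hU : (ToEtrU (ToEtrJ I.1 p.1) 5 3).eval x = Real.exp (dot w1 p.1 + b1) := by
      rw [ToEtr_evalU, ToEtr_dot w1 W1 (fun j => by simp [W1]), Real.exp_add, ToEtr_exp_sum,
        mul_comm]
      simp only [x5]
      rfl
    have hV : (ToEtrU (ToEtrJ I.1 p.1) 6 4).eval x = Real.exp (dot w2 p.1 + b2) := by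
      rw [ToEtr_evalU, ToEtr_dot w2 W2 (fun j => by simp [W2]), Real.exp_add, ToEtr_exp_sum,
        mul_comm]
      simp only [x6]
      rfl
    rw [ToEtrPt, ToEtr_holdsF, hU, hV]
    refine ⟨⟨Real.exp_pos _, Real.exp_pos _⟩, ?_⟩
    rw [← h p hp, heaviside, decide_eq_decide]
    exact (net_iff a0 a1 a2 _ _).symm
  · rintro ⟨x, hx⟩
    rw [ToEtr_holdsG] at hx
    refine ⟨fun j => Real.log (x (5 + 2 * j)), fun j => Real.log (x (6 + 2 * j)),
      Real.log (x 3), Real.log (x 4), x 0, x 1, x 2, fun p hp => ?_⟩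
    have h := hx p hp
    rw [ToEtrPt, ToEtr_holdsF] at h
    obtain ⟨⟨hU, hV⟩, h⟩ := h
    rw [← h, heaviside, decide_eq_decide, net_iff,
      ToEtr_dot _ (fun j => Real.log (x (5 + 2 * j))) (fun _ => rfl),
      ToEtr_dot _ (fun j => Real.log (x (6 + 2 * j))) (fun _ => rfl)]
    rw [ToEtr_evalU] at hU hV
    rw [ToEtr_exp_log _ (fun j => x (5 + 2 * j)) _ hU, ToEtr_exp_log _ (fun j => x (6 + 2 * j)) _ hV,
      ToEtr_evalU, ToEtr_evalU]

/-- Symbols with binary numbers. -/
def ToEtrB (l : List (ℕ × ℕ)) : List (Bin × Bin) := l.map fun t => (Bin.mk t.1, Bin.mk t.2)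

theorem ToEtrB_append (l l' : List (ℕ × ℕ)) : ToEtrB (l ++ l') = ToEtrB l ++ ToEtrB l' :=
  List.map_append

/-- The symbols of a monomial. -/
def ToEtrUt (J : List ℕ) (c b : ℕ) : List (Bin × Bin) :=
  (Bin.mk 0, Bin.mk b) :: J.flatMap fun j => [(Bin.mk 0, Bin.mk (c + 2 * j)), (Bin.mk 4, Bin.mk 0)]

theorem ToEtr_toks_fold (J : List ℕ) (c : ℕ) (t : Tm) :
    ToEtrB (J.foldl (fun t j => Tm.mul t (.var (c + 2 * j))) t).toks = ToEtrB t.toks ++
      J.flatMap fun j => [(Bin.mk 0, Bin.mk (c + 2 * j)), (Bin.mk 4, Bin.mk 0)] := by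
  induction J generalizing t with
  | nil => simp
  | cons j J ih => rw [List.foldl_cons, ih]; simp [Tm.toks, ToEtrB]

theorem ToEtr_toksU (J : List ℕ) (c b : ℕ) : ToEtrB (ToEtrU J c b).toks = ToEtrUt J c b :=
  ToEtr_toks_fold J c _

/-- The symbols of the cleared output. -/
def ToEtrPtk (U V : List (Bin × Bin)) : List (Bin × Bin) :=
  ToEtrB [(0, 0), (0, 1), (3, 0), (0, 2), (3, 0)] ++ U ++ V ++
    ToEtrB [(4, 0), (4, 0), (0, 0), (0, 1), (3, 0)] ++ U ++
      ToEtrB [(4, 0), (3, 0), (0, 0), (0, 2), (3, 0)] ++ V ++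
        ToEtrB [(4, 0), (3, 0), (0, 0), (3, 0)]

theorem ToEtr_toksP (U V : Tm) :
    ToEtrB (ToEtrP U V).toks = ToEtrPtk (ToEtrB U.toks) (ToEtrB V.toks) := by
  simp [ToEtrP, ToEtrPtk, Tm.toks, ToEtrB]

/-- The symbols of the formula of one point. -/
def ToEtrFt (U V : List (Bin × Bin)) (y : Bool) : List (Bin × Bin) :=
  ToEtrB [(1, 0)] ++ U ++ ToEtrB [(6, 0), (1, 0)] ++ V ++ ToEtrB [(6, 0), (9, 0)] ++
    ToEtrPtk U V ++ (bif y then ToEtrB [(1, 0), (6, 0), (8, 0), (9, 0)]
      else ToEtrB [(1, 0), (6, 0), (9, 0)])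

theorem ToEtr_toksF (U V : Tm) (y : Bool) :
    ToEtrB (ToEtrF U V y).toks = ToEtrFt (ToEtrB U.toks) (ToEtrB V.toks) y := by
  rw [ToEtrFt, ← ToEtr_toksP]
  cases y <;> simp [ToEtrF, Fm.toks, Tm.toks, ToEtrB]

/-- The active coordinates, with the dimension in binary. -/
def ToEtrJb (k : Bin) (l : List Bool) : List ℕ :=
  (List.range l.length).filter fun j => l.getD j false && (Bin.mk j).lt k

/-- The symbols of the reduction. -/
def ToEtrGt (I : Bin × List (List Bool × Bool)) : List (Bin × Bin) :=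
  ToEtrB [(1, 0), (1, 0), (7, 0)] ++ I.2.flatMap fun p =>
    ToEtrFt (ToEtrUt (ToEtrJb I.1 p.1) 5 3) (ToEtrUt (ToEtrJb I.1 p.1) 6 4) p.2 ++ ToEtrB [(9, 0)]

theorem ToEtr_toksG_fold (k : ℕ) (l : List (List Bool × Bool)) (f : Fm) :
    ToEtrB (l.foldl (fun f p => Fm.and f (ToEtrPt k p)) f).toks = ToEtrB f.toks ++
      l.flatMap fun p => ToEtrB (ToEtrPt k p).toks ++ ToEtrB [(9, 0)] := by
  induction l generalizing f with
  | nil => simp
  | cons p l ih => simp [ih, Fm.toks, ToEtrB_append]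

theorem ToEtr_toksG (I : ℕ × List (List Bool × Bool)) :
    ToEtrGt (Bin.mk I.1, I.2) = ToEtrB (ToEtrG I).toks := by
  rw [ToEtrG, ToEtr_toksG_fold, ToEtrGt]
  simp only [ToEtrPt, ToEtr_toksF, ToEtr_toksU]
  rfl

theorem ToEtr_pt : PT ToEtrGt := by
  unfold ToEtrGt ToEtrFt ToEtrPtk ToEtrUt ToEtrJb
  fun_prop

theorem ToEtr_enc (l : List (ℕ × ℕ)) : enc (ToEtrB l) = N487b59b3.bitEncode l := by
  induction l with
  | nil => rfl
  | cons t l ih =>
    rw [ToEtrB, List.map_cons, enc_cons, ← ToEtrB, ih]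
    rfl

theorem load_to_etr : ∃ g : ℕ × List (List Bool × Bool) → Fm,
    N68a2faeb.IsPolyTimeWithEncoding N487b59b3.toEncoding fmEnc g ∧
      ∀ I, (Loadable I ↔ ∃ x, (g I).Holds x) := by
  refine ⟨ToEtrG, ?_, ToEtr_correct⟩
  exact ToEtr_pt.tm2 _ _ ToEtrG (fun I => (Bin.mk I.1, I.2)) (fun _ => rfl) fun I => by
    rw [ToEtr_toksG, ToEtr_enc]
    rfl

end Pool.Agent.Work.MP_fae5c8_lc.ER
end

-- merged part: Pool.Agent.Work.MP_fae5c8_lc.Sound
section
/-! From a consistent network to a two-colouring. Coordinate `j` is copy `j % 17` of vertex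
`j / 17`. -/

namespace Pool.Agent.Work.MP_fae5c8_lc

open Finset

theorem exists_sorted_copies (typ : ℕ → Bool) (s : ℕ → ℝ) (v : ℕ) :
    ∃ (τ : Bool) (e : Fin 9 → ℕ), Function.Injective e ∧ (∀ i, e i / 17 = v) ∧
      (∀ i, typ (e i) = τ) ∧ Monotone (s ∘ e) := by
  obtain ⟨τ, hτ⟩ : ∃ τ : Bool, 9 ≤ ((range 17).filter fun a => typ (17 * v + a) = τ).card := by
    by_contra h
    push Not at h
    have h1 := h true
    have h2 := h false
    have := card_filter_add_card_filter_not (s := range 17) (fun a => typ (17 * v + a) = true)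
    simp only [Bool.not_eq_true, card_range] at this
    omega
  set T := (range 17).filter fun a => typ (17 * v + a) = τ
  let e0 : Fin 9 → ℕ := fun i => 17 * v + T.orderEmbOfCardLe hτ i
  have hmem : ∀ i, T.orderEmbOfCardLe hτ i ∈ T := fun i => orderEmbOfCardLe_mem _ _ _
  refine ⟨τ, e0 ∘ Tuple.sort (s ∘ e0), ?_, ?_, ?_, Tuple.monotone_sort (s ∘ e0)⟩
  · apply Function.Injective.comp _ (Equiv.injective _)
    intro i j h
    exact (T.orderEmbOfCardLe hτ).injective (Nat.add_left_cancel h)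
  · intro i
    have := mem_range.1 (mem_filter.1 (hmem (Tuple.sort (s ∘ e0) i))).1
    show (17 * v + T.orderEmbOfCardLe hτ (Tuple.sort (s ∘ e0) i)) / 17 = v
    omega
  · intro i
    exact (mem_filter.1 (hmem _)).2

theorem colouring_of_good (z : ℕ → ℝ × ℝ) (P : Set (ℝ × ℝ)) (hP : Good P) (V : ℕ)
    (E : ℕ → ℕ → ℕ → Prop) (hV : ∀ a b c, E a b c → a < V ∧ b < V ∧ c < V)
    (h0 : (0 : ℝ × ℝ) ∈ P)
    (hN : ∀ v < V, ∀ S : Finset ℕ, S.Nonempty → (∀ j ∈ S, j / 17 = v) → ∑ j ∈ S, z j ∉ P)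
    (hE : ∀ a b c, E a b c → ∀ S : Finset ℕ, (∀ j ∈ S, j / 17 = a ∨ j / 17 = b ∨ j / 17 = c) →
      (∃ j ∈ S, j / 17 = a) → (∃ j ∈ S, j / 17 = b) → (∃ j ∈ S, j / 17 = c) →
      ∑ j ∈ S, z j ∈ P) :
    ∃ col : ℕ → Bool, ∀ a b c, E a b c → ¬ (col a = col b ∧ col b = col c) := by
  obtain ⟨typ, htyp⟩ := hP
  choose col e he1 he2 he3 he4 using exists_sorted_copies (fun j => typ (z j).1) (fun j => (z j).1)
  refine ⟨col, ?_⟩
  have core : ∀ L M H : ℕ, L < V → M < V → H < V → col L = col M → col M = col H →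
      (∀ S : Finset ℕ, (∀ j ∈ S, j / 17 = L ∨ j / 17 = M ∨ j / 17 = H) →
        (∃ j ∈ S, j / 17 = L) → (∃ j ∈ S, j / 17 = M) → (∃ j ∈ S, j / 17 = H) →
        ∑ j ∈ S, z j ∈ P) →
      (z (e L 2)).1 ≤ (z (e M 2)).1 → (z (e M 5)).1 ≤ (z (e H 5)).1 → False := by
    intro L M H hL hM hH c1 c2 hpos o1 o2
    let slot : Fin 9 → ℕ := ![L, L, L, M, M, M, H, H, H]
    let φ : Fin 9 → ℕ := fun i => e (slot i) i
    have hφ : Function.Injective φ := by
      intro i j h
      have h1 : slot i = slot j := by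
        rw [← he2 (slot i) i, ← he2 (slot j) j]; exact congrArg (· / 17) h
      simp only [φ] at h
      rw [h1] at h
      exact he1 _ h
    have hdiv : ∀ i, φ i / 17 = slot i := fun i => he2 _ _
    have hsum : ∀ I : Finset (Fin 9), ∑ j ∈ I.image φ, z j = ∑ i ∈ I, z (φ i) := fun I =>
      sum_image (fun _ _ _ _ h => hφ h)
    have neg : ∀ (I : Finset (Fin 9)) (v : ℕ), v < V → I.Nonempty → (∀ i ∈ I, slot i = v) →
        ∑ i ∈ I, z (φ i) ∉ P := by
      intro I v hv hI h
      rw [← hsum]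
      apply hN v hv _ (hI.image _)
      intro j hj
      obtain ⟨i, hi, rfl⟩ := mem_image.1 hj
      rw [hdiv, h i hi]
    have pos : ∀ (I : Finset (Fin 9)), (∃ i ∈ I, slot i = L) → (∃ i ∈ I, slot i = M) →
        (∃ i ∈ I, slot i = H) → ∑ i ∈ I, z (φ i) ∈ P := by
      intro I ⟨i1, a1, b1⟩ ⟨i2, a2, b2⟩ ⟨i3, a3, b3⟩
      rw [← hsum]
      apply hpos
      · intro j hj
        obtain ⟨i, _, rfl⟩ := mem_image.1 hj
        rw [hdiv]
        fin_cases i <;> simp [slot]
      · exact ⟨_, mem_image_of_mem _ a1, by rw [hdiv, b1]⟩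
      · exact ⟨_, mem_image_of_mem _ a2, by rw [hdiv, b2]⟩
      · exact ⟨_, mem_image_of_mem _ a3, by rw [hdiv, b3]⟩
    have single : ∀ i, z (φ i) ∉ P := by
      intro i
      have := neg {i} (slot i) (by fin_cases i <;> simpa [slot]) (singleton_nonempty _)
        (by simp)
      simpa using this
    have sum3 : ∀ i j k : Fin 9, i ≠ j → i ≠ k → j ≠ k →
        ∑ x ∈ ({i, j, k} : Finset (Fin 9)), z (φ x) = z (φ i) + z (φ j) + z (φ k) := by
      intro i j k h1 h2 h3
      rw [sum_insert (by simp [h1, h2]), sum_pair h3, add_assoc]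
    have mono : ∀ (v : ℕ) (i j : Fin 9), i ≤ j → (z (e v i)).1 ≤ (z (e v j)).1 :=
      fun v i j h => he4 v h
    refine htyp (col L) (z (φ 0)) (z (φ 1)) (z (φ 2)) (z (φ 3)) (z (φ 4)) (z (φ 5)) (z (φ 6))
      (z (φ 7)) (z (φ 8)) (he3 L 0) (he3 L 1) (he3 L 2) ((he3 M 3).trans c1.symm)
      ((he3 M 4).trans c1.symm) ((he3 M 5).trans c1.symm) ((he3 H 6).trans (c1.trans c2).symm)
      ((he3 H 7).trans (c1.trans c2).symm) ((he3 H 8).trans (c1.trans c2).symm)
      (mono L 0 1 (by decide)) (mono L 1 2 (by decide)) (o1.trans (mono M 2 3 (by decide)))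
      (mono M 3 4 (by decide)) (mono M 4 5 (by decide)) (o2.trans (mono H 5 6 (by decide)))
      (mono H 6 7 (by decide)) (mono H 7 8 (by decide)) h0 (single _) (single _) (single _)
      (single _) (single _) (single _) (single _) (single _) (single _) ?_ ?_ ?_ ?_ ?_ ?_ ?_
    · rw [← sum3 0 1 2 (by decide) (by decide) (by decide)]
      exact neg _ L hL (by simp) (by simp [slot])
    · rw [← sum3 3 4 5 (by decide) (by decide) (by decide)]
      exact neg _ M hM (by simp) (by simp [slot])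
    · rw [← sum3 6 7 8 (by decide) (by decide) (by decide)]
      exact neg _ H hH (by simp) (by simp [slot])
    · rw [← sum3 0 3 6 (by decide) (by decide) (by decide)]
      exact pos _ ⟨0, by simp, rfl⟩ ⟨3, by simp, rfl⟩ ⟨6, by simp, rfl⟩
    · rw [← sum3 1 4 7 (by decide) (by decide) (by decide)]
      exact pos _ ⟨1, by simp, rfl⟩ ⟨4, by simp, rfl⟩ ⟨7, by simp, rfl⟩
    · rw [← sum3 2 5 8 (by decide) (by decide) (by decide)]
      exact pos _ ⟨2, by simp, rfl⟩ ⟨5, by simp, rfl⟩ ⟨8, by simp, rfl⟩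
    · have := pos univ ⟨0, by simp, rfl⟩ ⟨3, by simp, rfl⟩ ⟨6, by simp, rfl⟩
      simp only [Fin.sum_univ_succ, Fin.sum_univ_zero] at this
      convert this using 1
      simp only [add_assoc, add_zero]
      rfl
  rintro a b c hab ⟨c1, c2⟩
  obtain ⟨ha, hb, hc⟩ := hV a b c hab
  have H := hE a b c hab
  have k1 := core a b c ha hb hc c1 c2 H
  have k2 := core a c b ha hc hb (c1.trans c2) c2.symm
    (fun S s1 s2 s3 s4 => H S (fun j hj => by have := s1 j hj; (clear * - k1 s2 s3 s4 this; tauto)) s2 s4 s3)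
  have k3 := core b a c hb ha hc c1.symm (c1.trans c2)
    (fun S s1 s2 s3 s4 => H S (fun j hj => by have := s1 j hj; (clear * - k1 k2 s2 s3 s4 this; tauto)) s3 s2 s4)
  have k4 := core b c a hb hc ha c2 (c1.trans c2).symm
    (fun S s1 s2 s3 s4 => H S (fun j hj => by have := s1 j hj; (clear * - k1 k2 k3 s2 s3 s4 this; grind)) s4 s2 s3)
  have k5 := core c a b hc ha hb (c1.trans c2).symm c1
    (fun S s1 s2 s3 s4 => H S (fun j hj => by have := s1 j hj; (clear * - k1 k2 k3 k4 s2 s3 s4 this; grind)) s3 s4 s2)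
  have k6 := core c b a hc hb ha c2.symm c1.symm
    (fun S s1 s2 s3 s4 => H S (fun j hj => by have := s1 j hj; (clear * - k1 k2 k3 k4 k5 s2 s3 s4 this; grind)) s4 s3 s2)
  rcases le_total (z (e a 2)).1 (z (e b 2)).1 with h1 | h1
  · rcases le_total (z (e a 2)).1 (z (e c 2)).1 with h2 | h2
    · rcases le_total (z (e b 5)).1 (z (e c 5)).1 with h | h
      · exact k1 h1 h
      · exact k2 h2 h
    · rcases le_total (z (e a 5)).1 (z (e b 5)).1 with h | h
      · exact k5 h2 h
      · exact k6 (h2.trans h1) h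
  · rcases le_total (z (e b 2)).1 (z (e c 2)).1 with h2 | h2
    · rcases le_total (z (e a 5)).1 (z (e c 5)).1 with h | h
      · exact k3 h1 h
      · exact k4 h2 h
    · rcases le_total (z (e a 5)).1 (z (e b 5)).1 with h | h
      · exact k5 (h2.trans h1) h
      · exact k6 h2 h

end Pool.Agent.Work.MP_fae5c8_lc
end
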