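import Pool.Agent.Work.MP_fae5c8_lc.Main

namespace Pool.Agent.Results.MP_fae5c8_lc.NPHard

open Pool.Agent.Work.MP_fae5c8_lc

/-- The loading problem for the three-node network with two standard-sigmoid hidden nodes, a
perceptron output node and unrestricted real parameters is NP-hard, already for `m ≤ k` labelled
Boolean points. -/
theorem result : ∀ L ∈ N68a2faeb.NP, ∃ f : List Bool → ℕ × List (List Bool × Bool),
    N68a2faeb.IsPolyTime f ∧ ∀ x, (∀ p ∈ (f x).2, p.1.length = (f x).1) ∧
      (f x).2.length ≤ (f x).1 ∧ (L x = true ↔ Loadable (f x)) :=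
  main

end Pool.Agent.Results.MP_fae5c8_lc.NPHard
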